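import Mathlib

/-!
# `PGL(2,q)` is strict EKR robust only for `q = 2`

We work with permutation groups `G ≤ Perm Ω` on a finite set `Ω`, acting on the left:
`g i` is the image of the point `i` under `g` (written `i^g` in the problem). Replacing `g` by
`g⁻¹` turns left actions into right actions and maps the Cayley graph of the set `S` to the other
one, so the independence numbers do not depend on this convention.

Non-robustness is proved as follows.
* `q ≥ 7`: `I = (H \ {1}) ∪ {u, v}` with `H` the stabiliser of `∞`, and `u, v` two derangements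
  with `u 0 = v 0 = ∞` and `u ∞ ≠ v ∞`, is independent after deleting
  `D = Der ∩ {x y⁻¹ : x, y ∈ I}`, and `D` contains no `D_{i → j} ∪ D_{j → i}`.
* `q = 4`: the same construction with explicit `u, v`.
* `q` odd: the subgroup of index two (square determinants) and `D = ` its derangements.
-/

set_option autoImplicit false

namespace Pool.Agent.Results.MP_6fd06d_co.StrictRobustIff

open Equiv OnePoint

/-- The derangements of the permutation group `G`: the elements without fixed points. -/
def Der {Ω : Type*} (G : Subgroup (Perm Ω)) : Set G :=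
  {g | ∀ x : Ω, (g : Perm Ω) x ≠ x}

/-- `DerTo G i j` is the set of derangements of `G` sending `i` to `j`
(the set `D_{i → j}` of the problem). -/
def DerTo {Ω : Type*} (G : Subgroup (Perm Ω)) (i j : Ω) : Set G :=
  {g | g ∈ Der G ∧ (g : Perm Ω) i = j}

/-- The Cayley graph `Cay(Γ, S)` for an inverse-closed set `S` not containing `1`:
`g ~ h` iff `h * g⁻¹ ∈ S`. -/
def cayleyGraph {Γ : Type*} [Group Γ] (S : Set Γ) : SimpleGraph Γ :=
  SimpleGraph.fromRel fun g h => h * g⁻¹ ∈ S

/-- `G` is strict EKR robust: `α(Cay(G, Der G \ D)) = |G| / |Ω|` for every inverse-closed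
`D ⊆ Der G` which does not contain `D_{i → j} ∪ D_{j → i}` for any two distinct points `i, j`. -/
def StrictEKRRobust {Ω : Type*} (G : Subgroup (Perm Ω)) : Prop :=
  ∀ D : Set G, D ⊆ Der G → (∀ d ∈ D, d⁻¹ ∈ D) →
    (∀ i j : Ω, i ≠ j → ¬ (DerTo G i j ∪ DerTo G j i ⊆ D)) →
      ((cayleyGraph (Der G \ D)).indepNum : ℚ) = (Nat.card G : ℚ) / (Nat.card Ω : ℚ)

/-- `PGL(2, F)` as a permutation group on the projective line `F ∪ {∞}`: the group of all
permutations induced by the action of `GL(2, F)` by Möbius transformations. -/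
def PGL2 (F : Type*) [Field F] [DecidableEq F] : Subgroup (Perm (OnePoint F)) :=
  (MulAction.toPermHom (GL (Fin 2) F) (OnePoint F)).range

section General

variable {Ω : Type*} {G : Subgroup (Perm Ω)}

lemma inv_mem_der {g : G} (hg : g ∈ Der G) : g⁻¹ ∈ Der G := by
  intro x hx
  apply hg x
  have h2 : (g : Perm Ω) (((g⁻¹ : G) : Perm Ω) x) = (g : Perm Ω) x := by rw [hx]
  simpa using h2.symm

lemma cayley_adj {Γ : Type*} [Group Γ] {S : Set Γ} {g h : Γ} :
    (cayleyGraph S).Adj g h ↔ g ≠ h ∧ (h * g⁻¹ ∈ S ∨ g * h⁻¹ ∈ S) := by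
  simp [cayleyGraph, SimpleGraph.fromRel_adj]

/-- If an independent set is too large then the group is not robust. -/
lemma card_le_of_robust [Finite Ω] (hG : StrictEKRRobust G) (D : Set G) (hD : D ⊆ Der G)
    (hinv : ∀ d ∈ D, d⁻¹ ∈ D)
    (hcov : ∀ i j : Ω, i ≠ j → ¬ (DerTo G i j ∪ DerTo G j i ⊆ D))
    (I : Set G) (hI : ∀ x ∈ I, ∀ y ∈ I, x * y⁻¹ ∈ Der G → x * y⁻¹ ∈ D) (hn : 0 < Nat.card Ω) :
    I.ncard * Nat.card Ω ≤ Nat.card G := by
  classical
  have hfin : Finite G := inferInstance
  have : Fintype G := Fintype.ofFinite G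
  have h := hG D hD hinv hcov
  have hind : (cayleyGraph (Der G \ D)).IsIndepSet (I.toFinset : Set G) := by
    intro x hx y hy hxy hadj
    rw [Set.coe_toFinset] at hx hy
    rw [cayley_adj] at hadj
    rcases hadj.2 with h1 | h1
    · exact h1.2 (hI y hy x hx h1.1)
    · exact h1.2 (hI x hx y hy h1.1)
  have hle := hind.card_le_indepNum
  rw [← Set.ncard_eq_toFinset_card'] at hle
  have hn' : (0 : ℚ) < Nat.card Ω := by exact_mod_cast hn
  rw [eq_div_iff hn'.ne'] at h
  have h' : (cayleyGraph (Der G \ D)).indepNum * Nat.card Ω = Nat.card G := by exact_mod_cast h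
  rw [← h']
  exact Nat.mul_le_mul_right _ hle

/-- A general obstruction: remove the identity from a point stabiliser and add two
derangements. -/
lemma not_robust_of_frame [Finite Ω] (htr : ∀ x y : Ω, ∃ g : G, (g : Perm Ω) x = y)
    {p b₁ b₂ c : Ω} (u v : G) (hu : u ∈ Der G) (hv : v ∈ Der G)
    (hup : (u : Perm Ω) p = b₁) (hvp : (v : Perm Ω) p = b₂)
    (huc : (u : Perm Ω) c = p) (hvc : (v : Perm Ω) c = p)
    (hb : b₁ ≠ b₂) (hb₁ : b₁ ≠ c) (hb₂ : b₂ ≠ c)
    (cov : ∀ i j : Ω, i ≠ j → ∃ d ∈ Der G, ((d : Perm Ω) i = j ∨ (d : Perm Ω) j = i) ∧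
      ((d = u ∨ d = v) ∨ ((d : Perm Ω) p ≠ b₁ ∧ (d : Perm Ω) p ≠ b₂ ∧
        (d : Perm Ω) b₁ ≠ p ∧ (d : Perm Ω) b₂ ≠ p))) :
    ¬ StrictEKRRobust G := by
  classical
  intro hG
  have hfin : Finite G := inferInstance
  set I : Set G := {h | (h : Perm Ω) p = p ∧ h ≠ 1} ∪ {u, v} with hIdef
  set D : Set G := {d | d ∈ Der G ∧ ∃ x ∈ I, ∃ y ∈ I, d = x * y⁻¹} with hDdef
  have inv_apply : ∀ (g : G) (x y : Ω), (g : Perm Ω) x = y → ((g⁻¹ : G) : Perm Ω) y = x := by
    intro g x y h
    rw [← h]; simp
  have mul_apply : ∀ (g h : G) (x : Ω), ((g * h : G) : Perm Ω) x = (g : Perm Ω) ((h : Perm Ω) x) := by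
    intro g h x; simp
  have hup' := inv_apply _ _ _ hup
  have hvp' := inv_apply _ _ _ hvp
  have huc' := inv_apply _ _ _ huc
  have hvc' := inv_apply _ _ _ hvc
  have hI : ∀ x, x ∈ I ↔ (((x : Perm Ω) p = p ∧ x ≠ 1) ∨ x = u ∨ x = v) := by
    intro x
    simp only [hIdef, Set.mem_union, Set.mem_ofPred_eq, Set.mem_insert_iff, Set.mem_singleton_iff]
  have hI1 : ∀ x : G, (x : Perm Ω) p = p → ((x⁻¹ : G) : Perm Ω) p = p := by
    intro x hx; exact inv_apply _ _ _ hx
  -- `u` is not a quotient of elements of `I`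
  have huD : u ∉ D := by
    rintro ⟨-, x, hx, y, hy, hxy⟩
    rw [hI] at hx hy
    rcases hx with ⟨hx, hx1⟩ | rfl | rfl
    · rcases hy with ⟨hy, hy1⟩ | rfl | rfl
      · apply hu p; rw [hxy, mul_apply, hI1 y hy, hx]
      · have := congrArg (fun g : G => (g : Perm Ω) b₁) hxy
        simp only [mul_apply, hup', hx] at this
        exact hb₁ (by rw [← inv_apply _ _ _ this, huc'])
      · have := congrArg (fun g : G => (g : Perm Ω) b₂) hxy
        simp only [mul_apply, hvp', hx] at this
        exact hb₂ (by rw [← inv_apply _ _ _ this, huc'])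
    · rcases hy with ⟨hy, hy1⟩ | rfl | rfl
      · apply hy1
        simpa using hxy
      · apply hu p
        rw [hxy]; simp
      · apply hv p
        rw [left_eq_mul, inv_eq_one] at hxy
        rw [hxy]; simp
    · rcases hy with ⟨hy, hy1⟩ | rfl | rfl
      · have := congrArg (fun g : G => (g : Perm Ω) p) hxy
        simp only [mul_apply, hI1 y hy, hup, hvp] at this
        exact hb this
      · apply hu p
        rw [hxy, mul_apply, huc', hvc]
      · apply hu p
        rw [hxy]; simp
  have hvD : v ∉ D := by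
    rintro ⟨-, x, hx, y, hy, hxy⟩
    rw [hI] at hx hy
    rcases hx with ⟨hx, hx1⟩ | rfl | rfl
    · rcases hy with ⟨hy, hy1⟩ | rfl | rfl
      · apply hv p; rw [hxy, mul_apply, hI1 y hy, hx]
      · have := congrArg (fun g : G => (g : Perm Ω) b₁) hxy
        simp only [mul_apply, hup', hx] at this
        exact hb₁ (by rw [← inv_apply _ _ _ this, hvc'])
      · have := congrArg (fun g : G => (g : Perm Ω) b₂) hxy
        simp only [mul_apply, hvp', hx] at this
        exact hb₂ (by rw [← inv_apply _ _ _ this, hvc'])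
    · rcases hy with ⟨hy, hy1⟩ | rfl | rfl
      · have := congrArg (fun g : G => (g : Perm Ω) p) hxy
        simp only [mul_apply, hI1 y hy, hup, hvp] at this
        exact hb this.symm
      · apply hv p
        rw [hxy]; simp
      · apply hv p
        rw [hxy, mul_apply, hvc', huc]
    · rcases hy with ⟨hy, hy1⟩ | rfl | rfl
      · apply hy1
        simpa using hxy
      · apply hu p
        rw [left_eq_mul, inv_eq_one] at hxy
        rw [hxy]; simp
      · apply hv p
        rw [hxy]; simp
  -- a derangement in `D` moves points in one of four ways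
  have hD4 : ∀ d ∈ D, (d : Perm Ω) p = b₁ ∨ (d : Perm Ω) p = b₂ ∨ (d : Perm Ω) b₁ = p ∨
      (d : Perm Ω) b₂ = p := by
    rintro d ⟨hd, x, hx, y, hy, rfl⟩
    rw [hI] at hx hy
    rcases hx with ⟨hx, hx1⟩ | rfl | rfl
    · rcases hy with ⟨hy, hy1⟩ | rfl | rfl
      · exact absurd (by rw [mul_apply, hI1 y hy, hx]) (hd p)
      · right; right; left; rw [mul_apply, hup', hx]
      · right; right; right; rw [mul_apply, hvp', hx]
    · rcases hy with ⟨hy, hy1⟩ | rfl | rfl
      · left; rw [mul_apply, hI1 y hy, hup]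
      · exact absurd (by simp) (hd p)
      · exact absurd (by rw [mul_apply, hvc', huc]) (hd p)
    · rcases hy with ⟨hy, hy1⟩ | rfl | rfl
      · right; left; rw [mul_apply, hI1 y hy, hvp]
      · exact absurd (by rw [mul_apply, huc', hvc]) (hd p)
      · exact absurd (by simp) (hd p)
  have hDder : D ⊆ Der G := fun d hd => hd.1
  have hDinv : ∀ d ∈ D, d⁻¹ ∈ D := by
    rintro d ⟨hd, x, hx, y, hy, rfl⟩
    exact ⟨inv_mem_der hd, y, hy, x, hx, by group⟩
  have hcov : ∀ i j : Ω, i ≠ j → ¬ (DerTo G i j ∪ DerTo G j i ⊆ D) := by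
    intro i j hij hsub
    obtain ⟨d, hd, hdij, hd'⟩ := cov i j hij
    have hdD : d ∈ D := by
      apply hsub
      rcases hdij with h | h
      · exact Or.inl ⟨hd, h⟩
      · exact Or.inr ⟨hd, h⟩
    rcases hd' with (rfl | rfl) | ⟨h1, h2, h3, h4⟩
    · exact huD hdD
    · exact hvD hdD
    · rcases hD4 d hdD with h | h | h | h
      · exact h1 h
      · exact h2 h
      · exact h3 h
      · exact h4 h
  have hne : Nonempty Ω := ⟨p⟩
  have hn : 0 < Nat.card Ω := Nat.card_pos
  have hle := card_le_of_robust hG D hDder hDinv hcov I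
    (fun x hx y hy hxy => ⟨hxy, x, hx, y, hy, rfl⟩) hn
  -- count
  have : MulAction.IsPretransitive G Ω := ⟨fun x y => by
    obtain ⟨g, hg⟩ := htr x y
    exact ⟨g, hg⟩⟩
  have hidx := MulAction.index_stabilizer_of_transitive (G := G) p
  have hcard := Subgroup.index_mul_card (MulAction.stabilizer G p)
  rw [hidx] at hcard
  have hIcard : I.ncard = Nat.card (MulAction.stabilizer G p) + 1 := by
    have hHset : ((MulAction.stabilizer G p : Subgroup G) : Set G) = {h : G | (h : Perm Ω) p = p} := by
      ext h; simp [MulAction.mem_stabilizer_iff, Subgroup.smul_def]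
    have h1 : ({h : G | (h : Perm Ω) p = p ∧ h ≠ 1} : Set G) =
        ((MulAction.stabilizer G p : Subgroup G) : Set G) \ {1} := by
      rw [hHset]; ext h; simp
    have h2 : ({h : G | (h : Perm Ω) p = p ∧ h ≠ 1} : Set G).ncard =
        Nat.card (MulAction.stabilizer G p) - 1 := by
      rw [h1, Set.ncard_sdiff_singleton_of_mem (Subgroup.one_mem _)]
      rfl
    have h3 : ({u, v} : Set G).ncard = 2 := by
      apply Set.ncard_pair
      intro huv; apply hb; rw [← hup, ← hvp, huv]
    have hdisj : Disjoint ({h : G | (h : Perm Ω) p = p ∧ h ≠ 1} : Set G) {u, v} := by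
      rw [Set.disjoint_left]
      rintro x ⟨hx, -⟩ hx2
      rcases hx2 with rfl | rfl
      · exact hu p hx
      · exact hv p hx
    rw [hIdef, Set.ncard_union_eq hdisj (Set.toFinite _) (Set.toFinite _), h2, h3]
    have : 0 < Nat.card (MulAction.stabilizer G p) := Nat.card_pos
    omega
  rw [hIcard, ← hcard] at hle
  nlinarith [hle, hn]

/-- Another obstruction: a normal subgroup of index at most two that misses some derangement. -/
lemma not_robust_of_subgroup [Finite Ω] (h2tr : ∀ i j k l : Ω, i ≠ j → k ≠ l →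
      ∃ g : G, (g : Perm Ω) i = k ∧ (g : Perm Ω) j = l)
    (K : Subgroup G) (hKn : K.Normal) (hK : Nat.card G ≤ 2 * Nat.card K)
    (d : G) (hd : d ∈ Der G) (hdK : d ∉ K) (hn : 2 < Nat.card Ω) : ¬ StrictEKRRobust G := by
  intro hG
  have hfin : Finite G := inferInstance
  have hne : Nonempty Ω := by
    rw [← not_isEmpty_iff]; intro h; simp at hn
  obtain ⟨x⟩ := hne
  have hle := card_le_of_robust hG {g | g ∈ Der G ∧ g ∈ K} (fun g hg => hg.1)
    (fun g hg => ⟨inv_mem_der hg.1, K.inv_mem hg.2⟩) (by
      intro i j hij hsub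
      obtain ⟨g, hgi, hgj⟩ := h2tr x ((d : Perm Ω) x) i j (fun h => hd x h.symm) hij
      have hder : g * d * g⁻¹ ∈ Der G := by
        intro y hy
        apply hd (((g⁻¹ : G) : Perm Ω) y)
        have : ((g : G) : Perm Ω) ((d : Perm Ω) (((g⁻¹ : G) : Perm Ω) y)) = y := by simpa using hy
        have h2 := congrArg (fun z => ((g⁻¹ : G) : Perm Ω) z) this
        simpa using h2
      have hmem : g * d * g⁻¹ ∈ DerTo G i j ∪ DerTo G j i := by
        left
        refine ⟨hder, ?_⟩
        have hgi' : ((g⁻¹ : G) : Perm Ω) i = x := by rw [← hgi]; simp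
        have : ((g * d * g⁻¹ : G) : Perm Ω) i = (g : Perm Ω) ((d : Perm Ω) (((g⁻¹ : G) : Perm Ω) i)) := by
          simp
        rw [this, hgi', hgj]
      have := (hsub hmem).2
      apply hdK
      have h3 := hKn.conj_mem _ this g⁻¹
      simpa [mul_assoc] using h3)
    (K : Set G) (fun a ha b hb hab => ⟨hab, K.mul_mem ha (K.inv_mem hb)⟩) (by omega)
  have h0 : 0 < Nat.card K := Nat.card_pos
  have h1 : (K : Set G).ncard = Nat.card K := rfl
  rw [h1] at hle
  nlinarith

end General

section PGL

variable {F : Type*} [Field F] [DecidableEq F]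

/-- the element of `PGL2 F` given by a matrix -/
def ofMat (A : GL (Fin 2) F) : PGL2 F :=
  ⟨MulAction.toPermHom (GL (Fin 2) F) (OnePoint F) A, ⟨A, rfl⟩⟩

lemma ofMat_apply (A : GL (Fin 2) F) (x : OnePoint F) :
    ((ofMat A : PGL2 F) : Perm (OnePoint F)) x = A • x := rfl

lemma ofMat_mul (A B : GL (Fin 2) F) : ofMat (A * B) = ofMat A * ofMat B :=
  Subtype.ext (map_mul (MulAction.toPermHom (GL (Fin 2) F) (OnePoint F)) A B)

lemma ofMat_one : ofMat (1 : GL (Fin 2) F) = 1 :=
  Subtype.ext (map_one (MulAction.toPermHom (GL (Fin 2) F) (OnePoint F)))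

lemma ofMat_inv (A : GL (Fin 2) F) : ofMat A⁻¹ = (ofMat A)⁻¹ :=
  Subtype.ext (map_inv (MulAction.toPermHom (GL (Fin 2) F) (OnePoint F)) A)

lemma exists_der (α β δ : F) (h : ∀ x : F, x * x + (δ - α) * x - β ≠ 0) :
    ∃ d : PGL2 F, d ∈ Der (PGL2 F) ∧ (d : Perm (OnePoint F)) ∞ = (α : OnePoint F) ∧
      (∀ x : F, x + δ ≠ 0 →
        (d : Perm (OnePoint F)) (x : OnePoint F) = (((α * x + β) / (x + δ) : F) : OnePoint F)) ∧
      (d : Perm (OnePoint F)) ((-δ : F) : OnePoint F) = ∞ := by
  have hdet : (!![α, β; 1, δ] : Matrix (Fin 2) (Fin 2) F).det ≠ 0 := by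
    rw [Matrix.det_fin_two_of]
    intro h0
    apply h α
    have : β = α * δ := by linear_combination -h0
    rw [this]; ring
  let A : GL (Fin 2) F := Matrix.GeneralLinearGroup.mkOfDetNeZero _ hdet
  have h00 : A 0 0 = α := rfl
  have h01 : A 0 1 = β := rfl
  have h10 : A 1 0 = 1 := rfl
  have h11 : A 1 1 = δ := rfl
  have hinf : ((ofMat A : PGL2 F) : Perm (OnePoint F)) ∞ = (α : OnePoint F) := by
    rw [ofMat_apply, smul_infty_eq_ite, h00, h10]; simp
  have hfin : ∀ x : F, x + δ ≠ 0 → ((ofMat A : PGL2 F) : Perm (OnePoint F)) (x : OnePoint F) =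
      (((α * x + β) / (x + δ) : F) : OnePoint F) := by
    intro x hx
    rw [ofMat_apply, smul_some_eq_ite, h00, h01, h10, h11, one_mul, if_neg hx]
  have hpole : ((ofMat A : PGL2 F) : Perm (OnePoint F)) ((-δ : F) : OnePoint F) = ∞ := by
    rw [ofMat_apply, smul_some_eq_ite, h10, h11, one_mul, if_pos (by ring)]
  refine ⟨ofMat A, ?_, hinf, hfin, hpole⟩
  intro x hx
  induction x using OnePoint.rec with
  | infty => rw [hinf] at hx; exact coe_ne_infty _ hx
  | coe x =>
    by_cases h0 : x + δ = 0
    · have : x = -δ := by linear_combination h0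
      rw [this, hpole] at hx
      exact infty_ne_coe _ hx
    · rw [hfin x h0, OnePoint.coe_eq_coe, div_eq_iff h0] at hx
      exact h x (by linear_combination -hx)

lemma exists_map_inf_zero (i j : OnePoint F) (hij : i ≠ j) :
    ∃ g : PGL2 F, (g : Perm (OnePoint F)) ∞ = i ∧ (g : Perm (OnePoint F)) ((0 : F) : OnePoint F) = j := by
  induction i using OnePoint.rec with
  | infty =>
    induction j using OnePoint.rec with
    | infty => exact absurd rfl hij
    | coe t =>
      have hdet : (!![1, t; 0, 1] : Matrix (Fin 2) (Fin 2) F).det ≠ 0 := by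
        rw [Matrix.det_fin_two_of]; simp
      let A : GL (Fin 2) F := Matrix.GeneralLinearGroup.mkOfDetNeZero _ hdet
      have h00 : A 0 0 = 1 := rfl
      have h01 : A 0 1 = t := rfl
      have h10 : A 1 0 = 0 := rfl
      have h11 : A 1 1 = 1 := rfl
      refine ⟨ofMat A, ?_, ?_⟩
      · rw [ofMat_apply, smul_infty_eq_ite, h10, if_pos rfl]
      · rw [ofMat_apply, smul_some_eq_ite, h00, h01, h10, h11]; simp
  | coe s =>
    induction j using OnePoint.rec with
    | infty =>
      have hdet : (!![s, 1; 1, 0] : Matrix (Fin 2) (Fin 2) F).det ≠ 0 := by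
        rw [Matrix.det_fin_two_of]; simp
      let A : GL (Fin 2) F := Matrix.GeneralLinearGroup.mkOfDetNeZero _ hdet
      have h00 : A 0 0 = s := rfl
      have h01 : A 0 1 = 1 := rfl
      have h10 : A 1 0 = 1 := rfl
      have h11 : A 1 1 = 0 := rfl
      refine ⟨ofMat A, ?_, ?_⟩
      · rw [ofMat_apply, smul_infty_eq_ite, h10, h00]; simp
      · rw [ofMat_apply, smul_some_eq_ite, h00, h01, h10, h11]; simp
    | coe t =>
      have hst : s ≠ t := fun h => hij (by rw [h])
      have hdet : (!![s, t; 1, 1] : Matrix (Fin 2) (Fin 2) F).det ≠ 0 := by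
        rw [Matrix.det_fin_two_of]; simpa [sub_eq_zero] using hst
      let A : GL (Fin 2) F := Matrix.GeneralLinearGroup.mkOfDetNeZero _ hdet
      have h00 : A 0 0 = s := rfl
      have h01 : A 0 1 = t := rfl
      have h10 : A 1 0 = 1 := rfl
      have h11 : A 1 1 = 1 := rfl
      refine ⟨ofMat A, ?_, ?_⟩
      · rw [ofMat_apply, smul_infty_eq_ite, h10, h00]; simp
      · rw [ofMat_apply, smul_some_eq_ite, h00, h01, h10, h11]; simp

lemma two_transitive (i j k l : OnePoint F) (hij : i ≠ j) (hkl : k ≠ l) :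
    ∃ g : PGL2 F, (g : Perm (OnePoint F)) i = k ∧ (g : Perm (OnePoint F)) j = l := by
  obtain ⟨g, hg1, hg2⟩ := exists_map_inf_zero i j hij
  obtain ⟨h, hh1, hh2⟩ := exists_map_inf_zero k l hkl
  refine ⟨h * g⁻¹, ?_, ?_⟩
  · have : ((g⁻¹ : PGL2 F) : Perm (OnePoint F)) i = ∞ := by rw [← hg1]; simp
    have h2 : ((h * g⁻¹ : PGL2 F) : Perm (OnePoint F)) i =
      (h : Perm (OnePoint F)) (((g⁻¹ : PGL2 F) : Perm (OnePoint F)) i) := by simp
    rw [h2, this, hh1]
  · have : ((g⁻¹ : PGL2 F) : Perm (OnePoint F)) j = ((0 : F) : OnePoint F) := by rw [← hg2]; simp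
    have h2 : ((h * g⁻¹ : PGL2 F) : Perm (OnePoint F)) j =
      (h : Perm (OnePoint F)) (((g⁻¹ : PGL2 F) : Perm (OnePoint F)) j) := by simp
    rw [h2, this, hh2]

lemma transitive (x y : OnePoint F) : ∃ g : PGL2 F, (g : Perm (OnePoint F)) x = y := by
  classical
  obtain ⟨x', hx'⟩ : ∃ x' : OnePoint F, x ≠ x' := by
    by_cases h : x = ∞
    · exact ⟨((0 : F) : OnePoint F), by rw [h]; exact infty_ne_coe _⟩
    · exact ⟨∞, h⟩
  obtain ⟨y', hy'⟩ : ∃ y' : OnePoint F, y ≠ y' := by
    by_cases h : y = ∞
    · exact ⟨((0 : F) : OnePoint F), by rw [h]; exact infty_ne_coe _⟩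
    · exact ⟨∞, h⟩
  obtain ⟨g, hg, -⟩ := two_transitive x x' y y' hx' hy'
  exact ⟨g, hg⟩

/-- for every nonzero `T` there is `n` such that `y² - T y - n` has no root -/
lemma exists_n [Finite F] (T : F) (hT : T ≠ 0) : ∃ n : F, ∀ y : F, y * y - T * y - n ≠ 0 := by
  by_contra hcon
  push Not at hcon
  have hsurj : Function.Surjective (fun y : F => y * y - T * y) := by
    intro n
    obtain ⟨y, hy⟩ := hcon n
    exact ⟨y, by linear_combination hy⟩
  have hinj := (Finite.injective_iff_surjective).2 hsurj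
  apply hT
  apply hinj
  simp

/-- for every nonzero `c`, at least three values `t` are such that `y² - t y - c` has no root,
when `|F| ≥ 7` -/
lemma exists_t [Finite F] (hF : 7 ≤ Nat.card F) (c : F) (hc : c ≠ 0) (t₁ t₂ : F) :
    ∃ t : F, t ≠ t₁ ∧ t ≠ t₂ ∧ ∀ y : F, y * y - t * y - c ≠ 0 := by
  classical
  have : Fintype F := Fintype.ofFinite F
  rw [Nat.card_eq_fintype_card] at hF
  -- values where `y * y = - c`
  have hroots : (Finset.univ.filter (fun y : F => y * y = -c)).card ≤ 2 := by
    by_contra hcon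
    push Not at hcon
    obtain ⟨a, ha⟩ : (Finset.univ.filter (fun y : F => y * y = -c)).Nonempty := by
      rw [← Finset.card_pos]; omega
    have hsub : (Finset.univ.filter (fun y : F => y * y = -c)) ⊆ {a, -a} := by
      intro b hb
      simp only [Finset.mem_filter, Finset.mem_univ, true_and] at ha hb
      have : (b - a) * (b + a) = 0 := by linear_combination hb - ha
      rcases mul_eq_zero.1 this with h | h
      · simp [sub_eq_zero.1 h]
      · simp [eq_neg_of_add_eq_zero_left h]
    have := Finset.card_le_card hsub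
    have h2 : ({a, -a} : Finset F).card ≤ 2 := Finset.card_le_two
    omega
  -- choose s₁
  obtain ⟨s₁, hs₁0, hs₁⟩ : ∃ s₁ : F, s₁ ≠ 0 ∧ s₁ * s₁ ≠ -c := by
    by_contra hcon
    push Not at hcon
    have hsub : (Finset.univ : Finset F) ⊆ insert 0 (Finset.univ.filter (fun y : F => y * y = -c)) := by
      intro y _
      by_cases hy : y = 0
      · simp [hy]
      · simp [hcon y hy]
    have h1 := Finset.card_le_card hsub
    have h2 := Finset.card_insert_le (0 : F) (Finset.univ.filter (fun y : F => y * y = -c))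
    rw [Finset.card_univ] at h1
    omega
  obtain ⟨s₂, hs₂0, hs₂, hs21, hs21'⟩ : ∃ s₂ : F, s₂ ≠ 0 ∧ s₂ * s₂ ≠ -c ∧ s₂ ≠ s₁ ∧ s₂ ≠ -c / s₁ := by
    by_contra hcon
    push Not at hcon
    have hsub : (Finset.univ : Finset F) ⊆
        insert 0 (insert s₁ (insert (-c / s₁) (Finset.univ.filter (fun y : F => y * y = -c)))) := by
      intro y _
      by_cases hy : y = 0
      · simp [hy]
      · by_cases hy2 : y * y = -c
        · simp [hy2]
        · by_cases hy3 : y = s₁
          · simp [hy3]
          · simp [hcon y hy hy2 hy3]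
    have h1 := Finset.card_le_card hsub
    have h2 := Finset.card_insert_le (0 : F)
      (insert s₁ (insert (-c / s₁) (Finset.univ.filter (fun y : F => y * y = -c))))
    have h3 := Finset.card_insert_le s₁
      (insert (-c / s₁) (Finset.univ.filter (fun y : F => y * y = -c)))
    have h4 := Finset.card_insert_le (-c / s₁) (Finset.univ.filter (fun y : F => y * y = -c))
    rw [Finset.card_univ] at h1
    omega
  by_contra hcon
  push Not at hcon
  -- every value except `t₁, t₂` is attained by `s ↦ s - c / s` outside `{0, s₁, s₂}`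
  have hcover : (Finset.univ : Finset F) ⊆ insert t₁ (insert t₂
      ((((Finset.univ : Finset F).erase 0).erase s₁).erase s₂ |>.image (fun s => s - c / s))) := by
    intro t _
    by_cases h1 : t = t₁
    · simp [h1]
    by_cases h2 : t = t₂
    · simp [h2]
    obtain ⟨y, hy⟩ := hcon t h1 h2
    have hy0 : y ≠ 0 := by
      rintro rfl; apply hc; linear_combination -hy
    have hty : t = y - c / y := by
      field_simp; linear_combination -hy
    rw [Finset.mem_insert, Finset.mem_insert, Finset.mem_image]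
    right; right
    have hpart : ∀ s : F, s ≠ 0 → (-c / s) - c / (-c / s) = s - c / s := by
      intro s hs; field_simp; ring
    by_cases e1 : y = s₁
    · refine ⟨-c / s₁, ?_, ?_⟩
      · simp only [Finset.mem_erase, Finset.mem_univ, and_true]
        refine ⟨fun h => hs21' h.symm, ?_, ?_⟩
        · intro h; apply hs₁
          rw [div_eq_iff hs₁0] at h; exact h.symm
        · simp [hs₁0, hc]
      · rw [hpart s₁ hs₁0, hty, e1]
    by_cases e2 : y = s₂
    · refine ⟨-c / s₂, ?_, ?_⟩
      · simp only [Finset.mem_erase, Finset.mem_univ, and_true]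
        refine ⟨?_, ?_, ?_⟩
        · intro h; apply hs₂
          rw [div_eq_iff hs₂0] at h; exact h.symm
        · intro h
          apply hs21'
          rw [div_eq_iff hs₂0] at h
          rw [eq_div_iff hs₁0, h]; ring
        · simp [hs₂0, hc]
      · rw [hpart s₂ hs₂0, hty, e2]
    · exact ⟨y, by simp [e1, e2, hy0], hty.symm⟩
  have h1 := Finset.card_le_card hcover
  have h2 := Finset.card_insert_le t₁ (insert t₂
      ((((Finset.univ : Finset F).erase 0).erase s₁).erase s₂ |>.image (fun s => s - c / s)))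
  have h3 := Finset.card_insert_le t₂
      ((((Finset.univ : Finset F).erase 0).erase s₁).erase s₂ |>.image (fun s => s - c / s))
  have h4 : ((((Finset.univ : Finset F).erase 0).erase s₁).erase s₂ |>.image (fun s => s - c / s)).card
      ≤ ((((Finset.univ : Finset F).erase 0).erase s₁).erase s₂).card := Finset.card_image_le
  have h5 : ((((Finset.univ : Finset F).erase 0).erase s₁).erase s₂).card = Fintype.card F - 3 := by
    rw [Finset.card_erase_of_mem (by simp [hs21, hs₂0]), Finset.card_erase_of_mem (by simp [hs₁0]),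
      Finset.card_erase_of_mem (by simp), Finset.card_univ]
    omega
  rw [Finset.card_univ] at h1
  omega

lemma card_onePoint [Finite F] : Nat.card (OnePoint F) = Nat.card F + 1 := by
  classical
  have : Fintype F := Fintype.ofFinite F
  have h : Nat.card (Option F) = Nat.card F + 1 := by
    rw [Nat.card_eq_fintype_card, Nat.card_eq_fintype_card, Fintype.card_option]
  exact h

/-- fields with at least seven elements -/
lemma not_robust_of_seven_le [Finite F] (hF : 7 ≤ Nat.card F) : ¬ StrictEKRRobust (PGL2 F) := by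
  classical
  have : Fintype F := Fintype.ofFinite F
  have hcard : 7 ≤ Fintype.card F := by rwa [Nat.card_eq_fintype_card] at hF
  have avoid : ∀ S : Finset F, S.card ≤ 6 → ∃ x : F, x ∉ S := by
    intro S hS
    by_contra hcon
    push Not at hcon
    have : (Finset.univ : Finset F) ⊆ S := fun x _ => hcon x
    have := Finset.card_le_card this
    rw [Finset.card_univ] at this
    omega
  obtain ⟨b, hb⟩ := avoid {0, 1} (by have := Finset.card_le_two (a := (0 : F)) (b := 1); omega)
  simp only [Finset.mem_insert, Finset.mem_singleton, not_or] at hb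
  obtain ⟨n₁, hn₁⟩ := exists_n (1 : F) one_ne_zero
  obtain ⟨n₂, hn₂⟩ := exists_n b hb.1
  obtain ⟨u, hu, huinf, -, hupole⟩ := exists_der (1 : F) n₁ 0
    (fun x hx => hn₁ x (by linear_combination hx))
  obtain ⟨v, hv, hvinf, -, hvpole⟩ := exists_der b n₂ 0
    (fun x hx => hn₂ x (by linear_combination hx))
  rw [neg_zero] at hupole hvpole
  refine not_robust_of_frame transitive (p := ∞) (b₁ := ((1 : F) : OnePoint F))
    (b₂ := (b : OnePoint F)) (c := ((0 : F) : OnePoint F)) u v hu hv huinf hvinf hupole hvpole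
    (fun h => hb.2 (OnePoint.coe_injective h).symm)
    (fun h => one_ne_zero (OnePoint.coe_injective h)) (fun h => hb.1 (OnePoint.coe_injective h)) ?_
  -- pairs containing `∞`
  have inf_case : ∀ j : F, ∃ d ∈ Der (PGL2 F), (d : Perm (OnePoint F)) ∞ = (j : OnePoint F) ∧
      ((d = u ∨ d = v) ∨ ((d : Perm (OnePoint F)) ∞ ≠ ((1 : F) : OnePoint F) ∧
        (d : Perm (OnePoint F)) ∞ ≠ (b : OnePoint F) ∧
        (d : Perm (OnePoint F)) ((1 : F) : OnePoint F) ≠ ∞ ∧
        (d : Perm (OnePoint F)) (b : OnePoint F) ≠ ∞)) := by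
    intro j
    by_cases hj1 : j = 1
    · exact ⟨u, hu, by rw [huinf, hj1], Or.inl (Or.inl rfl)⟩
    by_cases hj2 : j = b
    · exact ⟨v, hv, by rw [hvinf, hj2], Or.inl (Or.inr rfl)⟩
    obtain ⟨δ, hδ⟩ := avoid {-1, -b, j} (by
      have h1 := Finset.card_le_three (a := (-1 : F)) (b := -b) (c := j); omega)
    simp only [Finset.mem_insert, Finset.mem_singleton, not_or] at hδ
    obtain ⟨n, hn⟩ := exists_n (j - δ) (sub_ne_zero.2 (fun h => hδ.2.2 h.symm))
    obtain ⟨d, hd, hdinf, hdfin, hdpole⟩ := exists_der j n δ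
      (fun x hx => hn x (by linear_combination hx))
    refine ⟨d, hd, hdinf, Or.inr ⟨?_, ?_, ?_, ?_⟩⟩
    · rw [hdinf]; exact fun h => hj1 (OnePoint.coe_injective h)
    · rw [hdinf]; exact fun h => hj2 (OnePoint.coe_injective h)
    · rw [hdfin 1 (fun h => hδ.1 (by linear_combination h))]; exact coe_ne_infty _
    · rw [hdfin b (fun h => hδ.2.1 (by linear_combination h))]; exact coe_ne_infty _
  intro i j hij
  induction i using OnePoint.rec with
  | infty =>
    induction j using OnePoint.rec with
    | infty => exact absurd rfl hij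
    | coe j =>
      obtain ⟨d, hd, hdj, h⟩ := inf_case j
      exact ⟨d, hd, Or.inl hdj, h⟩
  | coe i =>
    induction j using OnePoint.rec with
    | infty =>
      obtain ⟨d, hd, hdj, h⟩ := inf_case i
      exact ⟨d, hd, Or.inr hdj, h⟩
    | coe j =>
      have hij' : i ≠ j := fun h => hij (by rw [h])
      obtain ⟨B, hB⟩ := avoid {0, i - 1, i - b, -1, 0} (by
        have h1 := Finset.card_insert_le (0 : F) {i - 1, i - b, -1, 0}
        have h2 := Finset.card_insert_le (i - 1) {i - b, -1, 0}
        have h3 := Finset.card_le_three (a := i - b) (b := (-1 : F)) (c := 0)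
        omega)
      simp only [Finset.mem_insert, Finset.mem_singleton, not_or] at hB
      obtain ⟨t, ht1, ht2, ht⟩ := exists_t hF ((j - i) * B)
        (mul_ne_zero (sub_ne_zero.2 hij'.symm) hB.1) (1 - j + (j - i) - B) (b - j + (j - i) - B)
      -- `δ = B - i`, `α = t - (j - i) + B + j`, `β = j * B - α * i`
      obtain ⟨d, hd, hdinf, hdfin, hdpole⟩ := exists_der (t - (j - i) + B + j)
        (j * B - (t - (j - i) + B + j) * i) (B - i) (by
          intro x hx
          apply ht (x - i)
          linear_combination hx)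
      have hdi : (d : Perm (OnePoint F)) (i : OnePoint F) = (j : OnePoint F) := by
        rw [hdfin i (by simpa using hB.1), OnePoint.coe_eq_coe]
        have : i + (B - i) = B := by ring
        rw [this, div_eq_iff hB.1]; ring
      refine ⟨d, hd, Or.inl hdi, Or.inr ⟨?_, ?_, ?_, ?_⟩⟩
      · rw [hdinf]; intro h
        apply ht1
        linear_combination OnePoint.coe_injective h
      · rw [hdinf]; intro h
        apply ht2
        linear_combination OnePoint.coe_injective h
      · rw [hdfin 1 (fun h => hB.2.1 (by linear_combination h))]; exact coe_ne_infty _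
      · rw [hdfin b (fun h => hB.2.2.1 (by linear_combination h))]; exact coe_ne_infty _

/-- the field with four elements -/
lemma not_robust_of_four [Finite F] (hF : Nat.card F = 4) : ¬ StrictEKRRobust (PGL2 F) := by
  classical
  have : Fintype F := Fintype.ofFinite F
  have hcard : Fintype.card F = 4 := by rwa [Nat.card_eq_fintype_card] at hF
  have h2 : (2 : F) = 0 := by
    have h4 : ((4 : ℕ) : F) = 0 := by
      have := FiniteField.cast_card_eq_zero F
      rwa [hcard] at this
    have : (2 : F) * 2 = 0 := by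
      have e : (2 : F) * 2 = ((4 : ℕ) : F) := by norm_num
      rw [e, h4]
    exact mul_self_eq_zero.1 this
  obtain ⟨w, hw⟩ : ∃ w : F, w ∉ ({0, 1} : Finset F) := by
    by_contra hcon
    push Not at hcon
    have h1 : (Finset.univ : Finset F) ⊆ {0, 1} := fun x _ => hcon x
    have h3 := Finset.card_le_card h1
    have h4 := Finset.card_le_two (a := (0 : F)) (b := 1)
    rw [Finset.card_univ] at h3
    omega
  simp only [Finset.mem_insert, Finset.mem_singleton, not_or] at hw
  have hw3 : w ^ 3 = 1 := by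
    have := FiniteField.pow_card_sub_one_eq_one w hw.1
    rwa [hcard] at this
  have hww : w * w = w + 1 := by
    have h1 : (w - 1) * (w * w + w + 1) = 0 := by linear_combination hw3
    rcases mul_eq_zero.1 h1 with h | h
    · exact absurd (sub_eq_zero.1 h) hw.2
    · linear_combination h - (w + 1) * h2
  have hw1 : w + 1 ≠ 0 := by
    intro h
    apply hw.2
    linear_combination h - h2
  have hw1' : w + 1 ≠ w := by
    intro h; apply one_ne_zero (α := F); linear_combination h
  have hw1'' : w + 1 ≠ 1 := by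
    intro h; apply hw.1; linear_combination h
  have hall : ∀ x : F, x = 0 ∨ x = 1 ∨ x = w ∨ x = w + 1 := by
    have hsub : ({0, 1, w, w + 1} : Finset F) = Finset.univ := by
      apply Finset.eq_univ_of_card
      rw [hcard, Finset.card_insert_of_notMem, Finset.card_insert_of_notMem,
        Finset.card_insert_of_notMem, Finset.card_singleton]
      · simp
      · simp only [Finset.mem_insert, Finset.mem_singleton, not_or]
        exact ⟨fun h => hw.2 h.symm, fun h => hw1'' h.symm⟩
      · simp only [Finset.mem_insert, Finset.mem_singleton, not_or]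
        exact ⟨zero_ne_one, fun h => hw.1 h.symm, fun h => hw1 h.symm⟩
    intro x
    have hx : x ∈ ({0, 1, w, w + 1} : Finset F) := by rw [hsub]; exact Finset.mem_univ x
    simpa using hx
  -- the four derangements
  have hder : ∀ α β : F, (∀ x : F, x * x + (0 - α) * x - β ≠ 0) → ∃ d : PGL2 F, d ∈ Der (PGL2 F) ∧
      (d : Perm (OnePoint F)) ∞ = (α : OnePoint F) ∧
      (∀ x y : F, x ≠ 0 → α * x + β = y * x →
        (d : Perm (OnePoint F)) (x : OnePoint F) = (y : OnePoint F)) ∧
      (d : Perm (OnePoint F)) ((0 : F) : OnePoint F) = ∞ := by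
    intro α β h
    obtain ⟨d, hd, h1, h3, h4⟩ := exists_der α β 0 h
    refine ⟨d, hd, h1, ?_, by simpa using h4⟩
    intro x y hx hxy
    rw [h3 x (by simpa using hx), OnePoint.coe_eq_coe, add_zero, div_eq_iff hx, hxy]
  obtain ⟨u, hu, huinf, hufin, hupole⟩ := hder w w (by
    intro x hx
    rcases hall x with h | h | h | h <;> rw [h] at hx
    · apply hw.1; linear_combination -hx
    · apply one_ne_zero (α := F); linear_combination hx + w * h2
    · apply hw.1; linear_combination -hx
    · apply one_ne_zero (α := F); linear_combination hx)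
  obtain ⟨v, hv, hvinf, hvfin, hvpole⟩ := hder (w + 1) (w + 1) (by
    intro x hx
    rcases hall x with h | h | h | h <;> rw [h] at hx
    · apply hw1; linear_combination -hx
    · apply one_ne_zero (α := F); linear_combination hx + (w + 1) * h2
    · apply one_ne_zero (α := F); linear_combination -hx - w * h2
    · apply hw1; linear_combination -hx)
  obtain ⟨d₁, hd₁, hd₁inf, hd₁fin, hd₁pole⟩ := hder 1 (w + 1) (by
    intro x hx
    rcases hall x with h | h | h | h <;> rw [h] at hx
    · apply hw1; linear_combination -hx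
    · apply hw1; linear_combination -hx
    · apply hw.1; linear_combination -hx + hww
    · apply hw.1; linear_combination hx - hww)
  obtain ⟨d₂, hd₂, hd₂inf, hd₂fin, hd₂pole⟩ := hder 1 w (by
    intro x hx
    rcases hall x with h | h | h | h <;> rw [h] at hx
    · apply hw.1; linear_combination -hx
    · apply hw.1; linear_combination -hx
    · apply hw1; linear_combination hx - hww + w * h2
    · apply hw1; linear_combination hx - hww)
  have u1 : (u : Perm (OnePoint F)) ((1 : F) : OnePoint F) = ((0 : F) : OnePoint F) :=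
    hufin 1 0 one_ne_zero (by linear_combination w * h2)
  have uw : (u : Perm (OnePoint F)) (w : OnePoint F) = ((w + 1 : F) : OnePoint F) :=
    hufin w (w + 1) hw.1 (by ring)
  have uw1 : (u : Perm (OnePoint F)) ((w + 1 : F) : OnePoint F) = ((1 : F) : OnePoint F) :=
    hufin (w + 1) 1 hw1 (by linear_combination hww + w * h2)
  have d1_1 : (d₁ : Perm (OnePoint F)) ((1 : F) : OnePoint F) = (w : OnePoint F) :=
    hd₁fin 1 w one_ne_zero (by linear_combination h2)
  have d1_w : (d₁ : Perm (OnePoint F)) (w : OnePoint F) = ((w + 1 : F) : OnePoint F) :=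
    hd₁fin w (w + 1) hw.1 (by linear_combination -hww)
  have d1_w1 : (d₁ : Perm (OnePoint F)) ((w + 1 : F) : OnePoint F) = ((0 : F) : OnePoint F) :=
    hd₁fin (w + 1) 0 hw1 (by linear_combination (w + 1) * h2)
  have d2_w : (d₂ : Perm (OnePoint F)) (w : OnePoint F) = ((0 : F) : OnePoint F) :=
    hd₂fin w 0 hw.1 (by linear_combination w * h2)
  have d2_w1 : (d₂ : Perm (OnePoint F)) ((w + 1 : F) : OnePoint F) = (w : OnePoint F) :=
    hd₂fin (w + 1) w hw1 (by linear_combination -hww)
  have good₁ : (d₁ : Perm (OnePoint F)) ∞ ≠ (w : OnePoint F) ∧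
      (d₁ : Perm (OnePoint F)) ∞ ≠ ((w + 1 : F) : OnePoint F) ∧
      (d₁ : Perm (OnePoint F)) (w : OnePoint F) ≠ ∞ ∧
      (d₁ : Perm (OnePoint F)) ((w + 1 : F) : OnePoint F) ≠ ∞ := by
    refine ⟨?_, ?_, ?_, ?_⟩
    · rw [hd₁inf]; exact fun h => hw.2 (OnePoint.coe_injective h).symm
    · rw [hd₁inf]; exact fun h => hw1'' (OnePoint.coe_injective h).symm
    · rw [d1_w]; exact coe_ne_infty _
    · rw [d1_w1]; exact coe_ne_infty _
  have good₂ : (d₂ : Perm (OnePoint F)) ∞ ≠ (w : OnePoint F) ∧
      (d₂ : Perm (OnePoint F)) ∞ ≠ ((w + 1 : F) : OnePoint F) ∧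
      (d₂ : Perm (OnePoint F)) (w : OnePoint F) ≠ ∞ ∧
      (d₂ : Perm (OnePoint F)) ((w + 1 : F) : OnePoint F) ≠ ∞ := by
    refine ⟨?_, ?_, ?_, ?_⟩
    · rw [hd₂inf]; exact fun h => hw.2 (OnePoint.coe_injective h).symm
    · rw [hd₂inf]; exact fun h => hw1'' (OnePoint.coe_injective h).symm
    · rw [d2_w]; exact coe_ne_infty _
    · rw [d2_w1]; exact coe_ne_infty _
  refine not_robust_of_frame transitive (p := ∞) (b₁ := (w : OnePoint F))
    (b₂ := ((w + 1 : F) : OnePoint F)) (c := ((0 : F) : OnePoint F)) u v hu hv huinf hvinf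
    hupole hvpole (fun h => hw1' (OnePoint.coe_injective h).symm)
    (fun h => hw.1 (OnePoint.coe_injective h)) (fun h => hw1 (OnePoint.coe_injective h)) ?_
  have key : ∀ (P : OnePoint F → OnePoint F → Prop), (∀ i j, P i j → P j i) →
      P ∞ ((0 : F) : OnePoint F) → P ∞ ((1 : F) : OnePoint F) → P ∞ (w : OnePoint F) →
      P ∞ ((w + 1 : F) : OnePoint F) → P ((0 : F) : OnePoint F) ((1 : F) : OnePoint F) →
      P ((0 : F) : OnePoint F) (w : OnePoint F) →
      P ((0 : F) : OnePoint F) ((w + 1 : F) : OnePoint F) →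
      P ((1 : F) : OnePoint F) (w : OnePoint F) →
      P ((1 : F) : OnePoint F) ((w + 1 : F) : OnePoint F) →
      P (w : OnePoint F) ((w + 1 : F) : OnePoint F) → ∀ i j, i ≠ j → P i j := by
    intro P hsymm p1 p2 p3 p4 p5 p6 p7 p8 p9 p10 i j hij
    induction i using OnePoint.rec with
    | infty =>
      induction j using OnePoint.rec with
      | infty => exact absurd rfl hij
      | coe j => rcases hall j with h | h | h | h <;> rw [h] <;> assumption
    | coe i =>
      induction j using OnePoint.rec with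
      | infty =>
        apply hsymm
        rcases hall i with h | h | h | h <;> rw [h] <;> assumption
      | coe j =>
        rcases hall i with h | h | h | h <;> rcases hall j with h' | h' | h' | h' <;>
          rw [h, h'] <;> rw [h, h'] at hij <;>
          first
          | exact absurd rfl hij
          | assumption
          | (apply hsymm; assumption)
  apply key
  · rintro i j ⟨d, hd, h1, h3⟩
    exact ⟨d, hd, h1.symm, h3⟩
  · exact ⟨u, hu, Or.inr hupole, Or.inl (Or.inl rfl)⟩
  · exact ⟨d₁, hd₁, Or.inl hd₁inf, Or.inr good₁⟩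
  · exact ⟨u, hu, Or.inl huinf, Or.inl (Or.inl rfl)⟩
  · exact ⟨v, hv, Or.inl hvinf, Or.inl (Or.inr rfl)⟩
  · exact ⟨u, hu, Or.inr u1, Or.inl (Or.inl rfl)⟩
  · exact ⟨d₂, hd₂, Or.inr d2_w, Or.inr good₂⟩
  · exact ⟨d₁, hd₁, Or.inr d1_w1, Or.inr good₁⟩
  · exact ⟨d₁, hd₁, Or.inl d1_1, Or.inr good₁⟩
  · exact ⟨u, hu, Or.inr uw1, Or.inl (Or.inl rfl)⟩
  · exact ⟨u, hu, Or.inl uw, Or.inl (Or.inl rfl)⟩

/-- fields of odd characteristic -/
lemma not_robust_of_odd [Finite F] (hF : ringChar F ≠ 2) : ¬ StrictEKRRobust (PGL2 F) := by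
  classical
  have : Fintype F := Fintype.ofFinite F
  -- the subgroup of permutations given by matrices with square determinant
  let K : Subgroup (PGL2 F) :=
    { carrier := {g | ∃ A : GL (Fin 2) F, IsSquare (A : Matrix (Fin 2) (Fin 2) F).det ∧ ofMat A = g}
      mul_mem' := by
        rintro a b ⟨A, hA, rfl⟩ ⟨B, hB, rfl⟩
        refine ⟨A * B, ?_, ?_⟩
        · rw [Units.val_mul, Matrix.det_mul]; exact hA.mul hB
        · exact ofMat_mul A B
      one_mem' := ⟨1, by simp, ofMat_one⟩
      inv_mem' := by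
        rintro a ⟨A, hA, rfl⟩
        refine ⟨A⁻¹, ?_, ?_⟩
        · have h1 : (A : Matrix (Fin 2) (Fin 2) F).det *
              ((A⁻¹ : GL (Fin 2) F) : Matrix (Fin 2) (Fin 2) F).det = 1 := by
            rw [← Matrix.det_mul, ← Units.val_mul, mul_inv_cancel]; simp
          have h2 : ((A⁻¹ : GL (Fin 2) F) : Matrix (Fin 2) (Fin 2) F).det =
              ((A : Matrix (Fin 2) (Fin 2) F).det)⁻¹ := eq_inv_of_mul_eq_one_right h1
          rw [h2]; exact hA.inv
        · exact ofMat_inv A }
  have hKmem : ∀ g, g ∈ K ↔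
      ∃ A : GL (Fin 2) F, IsSquare (A : Matrix (Fin 2) (Fin 2) F).det ∧ ofMat A = g := fun g => Iff.rfl
  -- well-definedness
  have hwd : ∀ A B : GL (Fin 2) F, ofMat A = ofMat B →
      IsSquare (A : Matrix (Fin 2) (Fin 2) F).det → IsSquare (B : Matrix (Fin 2) (Fin 2) F).det := by
    intro A B hAB hA
    have hact : ∀ x : OnePoint F, (A⁻¹ * B) • x = x := by
      intro x
      have h1 : A • x = B • x := by
        rw [← ofMat_apply, ← ofMat_apply, hAB]
      rw [mul_smul, ← h1, inv_smul_smul]
    set C := A⁻¹ * B with hC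
    have hB : B = A * C := by rw [hC]; group
    have h10 : C 1 0 = 0 := smul_infty_eq_self_iff.1 (hact ∞)
    have hdet := C.det_ne_zero
    rw [Matrix.det_fin_two] at hdet
    have h11 : C 1 1 ≠ 0 := by
      intro h0; apply hdet; rw [h10, h0]; ring
    have h01 : C 0 1 = 0 := by
      have h := hact ((0 : F) : OnePoint F)
      rw [smul_some_eq_ite, h10, if_neg (by simpa using h11), OnePoint.coe_eq_coe,
        div_eq_iff (by simpa using h11)] at h
      simpa using h
    have h00 : C 0 0 = C 1 1 := by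
      have h := hact ((1 : F) : OnePoint F)
      rw [smul_some_eq_ite, h10, if_neg (by simpa using h11), OnePoint.coe_eq_coe,
        div_eq_iff (by simpa using h11), h01] at h
      simpa using h
    rw [hB, Units.val_mul, Matrix.det_mul]
    refine hA.mul ?_
    rw [Matrix.det_fin_two, h10, h01, h00]
    exact ⟨C 1 1, by ring⟩
  obtain ⟨m, hm⟩ := FiniteField.exists_nonsquare hF
  have hm0 : m ≠ 0 := by rintro rfl; exact hm (by simp)
  obtain ⟨t, ht⟩ : ∃ t : F, ∀ y : F, y * y - t * y - (-m) ≠ 0 := by
    by_contra hcon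
    push Not at hcon
    have hcover : (Finset.univ : Finset F) ⊆ ((Finset.univ : Finset F).erase 0).image
        (fun s => s - (-m) / s) := by
      intro t _
      obtain ⟨y, hy⟩ := hcon t
      have hy0 : y ≠ 0 := by
        rintro rfl; apply hm0; linear_combination hy
      rw [Finset.mem_image]
      refine ⟨y, by simp [hy0], ?_⟩
      field_simp; linear_combination hy
    have h1 := Finset.card_le_card hcover
    have h3 := Finset.card_image_le (s := (Finset.univ : Finset F).erase 0)
      (f := fun s => s - (-m) / s)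
    rw [Finset.card_erase_of_mem (Finset.mem_univ _)] at h3
    have h4 : 0 < (Finset.univ : Finset F).card := Finset.card_pos.2 ⟨0, Finset.mem_univ _⟩
    omega
  have hdet : (!![t, -m; 1, 0] : Matrix (Fin 2) (Fin 2) F).det ≠ 0 := by
    rw [Matrix.det_fin_two_of]; simpa using hm0
  let A : GL (Fin 2) F := Matrix.GeneralLinearGroup.mkOfDetNeZero _ hdet
  have hAdet : (A : Matrix (Fin 2) (Fin 2) F).det = m := by
    have : (A : Matrix (Fin 2) (Fin 2) F) = !![t, -m; 1, 0] := rfl
    rw [this, Matrix.det_fin_two_of]; ring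
  have h00 : A 0 0 = t := rfl
  have h01 : A 0 1 = -m := rfl
  have h10 : A 1 0 = 1 := rfl
  have h11 : A 1 1 = 0 := rfl
  have hder : ofMat A ∈ Der (PGL2 F) := by
    intro x hx
    rw [ofMat_apply] at hx
    induction x using OnePoint.rec with
    | infty =>
      rw [smul_infty_eq_self_iff, h10] at hx
      exact one_ne_zero hx
    | coe x =>
      rw [smul_some_eq_ite, h00, h01, h10, h11] at hx
      by_cases h0 : 1 * x + 0 = 0
      · rw [if_pos h0] at hx; exact infty_ne_coe _ hx
      · rw [if_neg h0, OnePoint.coe_eq_coe, div_eq_iff h0] at hx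
        exact ht x (by linear_combination -hx)
  have hnot : ofMat A ∉ K := by
    rw [hKmem]
    rintro ⟨B, hB, hBA⟩
    exact hm (hAdet ▸ hwd B A hBA hB)
  -- the index is at most two
  have hprod : ∀ a b : F, ¬ IsSquare a → ¬ IsSquare b → IsSquare (a * b) := by
    intro a b ha hb
    by_contra hab
    rw [← quadraticChar_neg_one_iff_not_isSquare] at ha hb hab
    rw [map_mul, ha, hb] at hab
    norm_num at hab
  have hcases : ∀ g : PGL2 F, g ∈ K ∨ g * ofMat A ∈ K := by
    rintro ⟨_, B, rfl⟩
    by_cases hB : IsSquare (B : Matrix (Fin 2) (Fin 2) F).det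
    · left; exact ⟨B, hB, rfl⟩
    · right
      refine ⟨B * A, ?_, ?_⟩
      · rw [Units.val_mul, Matrix.det_mul]
        exact hprod _ _ hB (by rw [hAdet]; exact hm)
      · exact ofMat_mul B A
  have hfinG : Finite (PGL2 F) := inferInstance
  have hcardK : Nat.card (PGL2 F) ≤ 2 * Nat.card K := by
    have hsub : (Set.univ : Set (PGL2 F)) ⊆ (K : Set (PGL2 F)) ∪ (fun g => g * (ofMat A)⁻¹) '' (K : Set (PGL2 F)) := by
      intro g _
      rcases hcases g with h | h
      · exact Or.inl h
      · exact Or.inr ⟨g * ofMat A, h, by simp⟩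
    have h1 := Set.ncard_le_ncard hsub (Set.toFinite _)
    have h2 := Set.ncard_union_le (K : Set (PGL2 F)) ((fun g => g * (ofMat A)⁻¹) '' (K : Set (PGL2 F)))
    have h3 := Set.ncard_image_le (s := (K : Set (PGL2 F))) (f := fun g => g * (ofMat A)⁻¹) (Set.toFinite _)
    have h4 : (K : Set (PGL2 F)).ncard = Nat.card K := rfl
    rw [Set.ncard_univ] at h1
    omega
  refine not_robust_of_subgroup two_transitive K ?_ hcardK (ofMat A) hder hnot ?_
  · refine ⟨?_⟩
    rintro n ⟨B, hB, rfl⟩ ⟨_, C, rfl⟩
    refine ⟨C * B * C⁻¹, ?_, ?_⟩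
    · have h1 : ((C * B * C⁻¹ : GL (Fin 2) F) : Matrix (Fin 2) (Fin 2) F).det =
          (B : Matrix (Fin 2) (Fin 2) F).det := by
        have h1 : (C : Matrix (Fin 2) (Fin 2) F).det *
            ((C⁻¹ : GL (Fin 2) F) : Matrix (Fin 2) (Fin 2) F).det = 1 := by
          rw [← Matrix.det_mul, ← Units.val_mul, mul_inv_cancel]; simp
        rw [Units.val_mul, Units.val_mul, Matrix.det_mul, Matrix.det_mul]
        linear_combination (B : Matrix (Fin 2) (Fin 2) F).det * h1
      rw [h1]; exact hB
    · rw [ofMat_mul, ofMat_mul, ofMat_inv]; rfl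
  · rw [card_onePoint, Nat.card_eq_fintype_card]
    have h3 : 2 < Fintype.card F := by
      have h1 : Fintype.card F ≠ 1 := fun h => by
        have := Fintype.one_lt_card (α := F); omega
      have h2 : Fintype.card F ≠ 2 := fun h => by
        apply hF
        have h5 := FiniteField.cast_card_eq_zero F
        rw [h] at h5
        have h6 : ringChar F ∣ 2 := ringChar.dvd h5
        exact (Nat.prime_dvd_prime_iff_eq (CharP.char_is_prime F (ringChar F)) Nat.prime_two).1 h6
      have := Fintype.one_lt_card (α := F)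
      omega
    omega

/-- the field with two elements -/
lemma robust_of_two [Finite F] (hF : Nat.card F = 2) : StrictEKRRobust (PGL2 F) := by
  classical
  have : Fintype F := Fintype.ofFinite F
  have hcard : Fintype.card F = 2 := by rwa [Nat.card_eq_fintype_card] at hF
  have hall : ∀ x : F, x = 0 ∨ x = 1 := by
    have hsub : ({0, 1} : Finset F) = Finset.univ := by
      apply Finset.eq_univ_of_card
      rw [hcard, Finset.card_pair zero_ne_one]
    intro x
    have hx : x ∈ ({0, 1} : Finset F) := by rw [hsub]; exact Finset.mem_univ x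
    simpa using hx
  have hpts : ∀ x : OnePoint F, x = ∞ ∨ x = ((0 : F) : OnePoint F) ∨ x = ((1 : F) : OnePoint F) := by
    intro x
    induction x using OnePoint.rec with
    | infty => exact Or.inl rfl
    | coe x => rcases hall x with h | h <;> rw [h] <;> simp
  have h0inf : ((0 : F) : OnePoint F) ≠ ∞ := coe_ne_infty _
  have h1inf : ((1 : F) : OnePoint F) ≠ ∞ := coe_ne_infty _
  have h01 : ((0 : F) : OnePoint F) ≠ ((1 : F) : OnePoint F) :=
    fun h => zero_ne_one (OnePoint.coe_injective h)
  have hclass : ∀ e : PGL2 F, e ∈ Der (PGL2 F) →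
      ((e : Perm (OnePoint F)) ∞ = ((0 : F) : OnePoint F) ∧
        (e : Perm (OnePoint F)) ((0 : F) : OnePoint F) = ((1 : F) : OnePoint F) ∧
        (e : Perm (OnePoint F)) ((1 : F) : OnePoint F) = ∞) ∨
      ((e : Perm (OnePoint F)) ∞ = ((1 : F) : OnePoint F) ∧
        (e : Perm (OnePoint F)) ((1 : F) : OnePoint F) = ((0 : F) : OnePoint F) ∧
        (e : Perm (OnePoint F)) ((0 : F) : OnePoint F) = ∞) := by
    intro e he
    have hinj := (e : Perm (OnePoint F)).injective
    rcases hpts ((e : Perm (OnePoint F)) ∞) with h | h | h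
    · exact absurd h (he _)
    · left
      have h2 : (e : Perm (OnePoint F)) ((1 : F) : OnePoint F) = ∞ := by
        rcases hpts ((e : Perm (OnePoint F)) ((1 : F) : OnePoint F)) with h' | h' | h'
        · exact h'
        · exact absurd (hinj (h'.trans h.symm)) h1inf
        · exact absurd h' (he _)
      refine ⟨h, ?_, h2⟩
      rcases hpts ((e : Perm (OnePoint F)) ((0 : F) : OnePoint F)) with h' | h' | h'
      · exact absurd (hinj (h'.trans h2.symm)) h01
      · exact absurd h' (he _)
      · exact h'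
    · right
      have h2 : (e : Perm (OnePoint F)) ((0 : F) : OnePoint F) = ∞ := by
        rcases hpts ((e : Perm (OnePoint F)) ((0 : F) : OnePoint F)) with h' | h' | h'
        · exact h'
        · exact absurd h' (he _)
        · exact absurd (hinj (h'.trans h.symm)) h0inf
      refine ⟨h, ?_, h2⟩
      rcases hpts ((e : Perm (OnePoint F)) ((1 : F) : OnePoint F)) with h' | h' | h'
      · exact absurd (hinj (h'.trans h2.symm)) h01.symm
      · exact h'
      · exact absurd h' (he _)
  have ext3 : ∀ e e' : PGL2 F, (e : Perm (OnePoint F)) ∞ = (e' : Perm (OnePoint F)) ∞ →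
      (e : Perm (OnePoint F)) ((0 : F) : OnePoint F) =
        (e' : Perm (OnePoint F)) ((0 : F) : OnePoint F) →
      (e : Perm (OnePoint F)) ((1 : F) : OnePoint F) =
        (e' : Perm (OnePoint F)) ((1 : F) : OnePoint F) → e = e' := by
    intro e e' h1 h2 h3
    apply Subtype.ext
    apply Equiv.ext
    intro x
    rcases hpts x with h | h | h <;> rw [h] <;> assumption
  have hder2 : ∀ e : PGL2 F, e ∈ Der (PGL2 F) → e * e ∈ Der (PGL2 F) := by
    intro e he x
    have hmul : ((e * e : PGL2 F) : Perm (OnePoint F)) x =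
      (e : Perm (OnePoint F)) ((e : Perm (OnePoint F)) x) := by simp
    rw [hmul]
    rcases hclass e he with ⟨h1, h2, h3⟩ | ⟨h1, h2, h3⟩ <;> rcases hpts x with h | h | h <;> rw [h]
    · rw [h1, h2]; exact h1inf
    · rw [h2, h3]; exact h0inf.symm
    · rw [h3, h1]; exact h01
    · rw [h1, h2]; exact h0inf
    · rw [h3, h1]; exact h01.symm
    · rw [h2, h3]; exact h1inf.symm
  have hderinv : ∀ e d : PGL2 F, e ∈ Der (PGL2 F) → d ∈ Der (PGL2 F) → e = d ∨ e = d⁻¹ := by
    intro e d he hd
    have happ : ∀ (g : PGL2 F) (x y : OnePoint F), (g : Perm (OnePoint F)) x = y →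
        ((g⁻¹ : PGL2 F) : Perm (OnePoint F)) y = x := by
      intro g x y h; rw [← h]; simp
    rcases hclass e he with ⟨h1, h2, h3⟩ | ⟨h1, h2, h3⟩ <;>
      rcases hclass d hd with ⟨k1, k2, k3⟩ | ⟨k1, k2, k3⟩
    · left; apply ext3
      · rw [h1, k1]
      · rw [h2, k2]
      · rw [h3, k3]
    · right; apply ext3
      · rw [h1, happ _ _ _ k3]
      · rw [h2, happ _ _ _ k2]
      · rw [h3, happ _ _ _ k1]
    · right; apply ext3
      · rw [h1, happ _ _ _ k3]
      · rw [h3, happ _ _ _ k1]
      · rw [h2, happ _ _ _ k2]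
    · left; apply ext3
      · rw [h1, k1]
      · rw [h3, k3]
      · rw [h2, k2]
  obtain ⟨n, hn⟩ := exists_n (1 : F) one_ne_zero
  obtain ⟨u, hu, -, -, -⟩ := exists_der (1 : F) n 0
    (fun x hx => hn x (by linear_combination hx))
  have hfinG : Finite (PGL2 F) := inferInstance
  intro D hD hinv hcov
  have hDempty : D = ∅ := by
    by_contra hne
    obtain ⟨d, hd⟩ := Set.nonempty_iff_ne_empty.2 hne
    apply hcov ∞ ((0 : F) : OnePoint F) h0inf.symm
    have hsub : Der (PGL2 F) ⊆ D := by
      intro e he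
      rcases hderinv e d he (hD hd) with h | h
      · rw [h]; exact hd
      · rw [h]; exact hinv d hd
    rintro e (he | he)
    · exact hsub he.1
    · exact hsub he.1
  subst hDempty
  have : Fintype (PGL2 F) := Fintype.ofFinite _
  have hpre : MulAction.IsPretransitive (PGL2 F) (OnePoint F) := ⟨fun x y => by
    obtain ⟨g, hg⟩ := transitive x y
    exact ⟨g, hg⟩⟩
  have hidx := MulAction.index_stabilizer_of_transitive (G := PGL2 F) (∞ : OnePoint F)
  have hcardG := Subgroup.index_mul_card (MulAction.stabilizer (PGL2 F) (∞ : OnePoint F))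
  rw [hidx] at hcardG
  have hn3 : Nat.card (OnePoint F) = 3 := by rw [card_onePoint, hF]
  rw [hn3] at hcardG ⊢
  -- lower bound
  have hlow : Nat.card (MulAction.stabilizer (PGL2 F) (∞ : OnePoint F)) ≤
      (cayleyGraph (Der (PGL2 F) \ ∅)).indepNum := by
    have hind : (cayleyGraph (Der (PGL2 F) \ ∅)).IsIndepSet
        (((MulAction.stabilizer (PGL2 F) (∞ : OnePoint F) : Subgroup (PGL2 F)) :
          Set (PGL2 F)).toFinset : Set (PGL2 F)) := by
      intro x hx y hy hxy hadj
      rw [Set.coe_toFinset] at hx hy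
      rw [cayley_adj] at hadj
      rcases hadj.2 with h1 | h1
      · exact h1.1 ∞ (Subgroup.mul_mem _ hy (Subgroup.inv_mem _ hx))
      · exact h1.1 ∞ (Subgroup.mul_mem _ hx (Subgroup.inv_mem _ hy))
    have hle := hind.card_le_indepNum
    rwa [← Set.ncard_eq_toFinset_card'] at hle
  -- upper bound
  obtain ⟨s, hs⟩ := SimpleGraph.exists_isNIndepSet_indepNum
    (G := cayleyGraph (Der (PGL2 F) \ ∅))
  have hnot : ∀ x ∈ s, ∀ y ∈ s, x * y⁻¹ ∉ Der (PGL2 F) := by
    intro x hx y hy hxy
    have hne : x ≠ y := by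
      rintro rfl
      exact hxy ∞ (by simp)
    apply hs.isIndepSet (by exact_mod_cast hx) (by exact_mod_cast hy) hne
    rw [cayley_adj]
    exact ⟨hne, Or.inr ⟨hxy, by simp⟩⟩
  have hup : 3 * (cayleyGraph (Der (PGL2 F) \ ∅)).indepNum ≤ Nat.card (PGL2 F) := by
    rw [← hs.card_eq, Nat.card_eq_fintype_card]
    have hd1 : Disjoint s (s.image (fun g => u * g)) := by
      rw [Finset.disjoint_left]
      intro x hx hx'
      obtain ⟨y, hy, rfl⟩ := Finset.mem_image.1 hx'
      exact hnot _ hx _ hy (by simpa using hu)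
    have hd2 : Disjoint (s ∪ s.image (fun g => u * g)) (s.image (fun g => u⁻¹ * g)) := by
      rw [Finset.disjoint_left]
      intro x hx hx'
      obtain ⟨y, hy, rfl⟩ := Finset.mem_image.1 hx'
      rcases Finset.mem_union.1 hx with hx | hx
      · exact hnot _ hx _ hy (by simpa using inv_mem_der hu)
      · obtain ⟨z, hz, hzy⟩ := Finset.mem_image.1 hx
        apply hnot _ hy _ hz
        have : y = u * (u * z) := by
          rw [hzy]; group
        rw [this]
        have e : u * (u * z) * z⁻¹ = u * u := by group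
        rw [e]
        exact hder2 u hu
    have hc1 : (s.image (fun g => u * g)).card = s.card :=
      Finset.card_image_of_injective _ (mul_right_injective u)
    have hc2 : (s.image (fun g => u⁻¹ * g)).card = s.card :=
      Finset.card_image_of_injective _ (mul_right_injective u⁻¹)
    have htot := Finset.card_le_univ ((s ∪ s.image (fun g => u * g)) ∪ s.image (fun g => u⁻¹ * g))
    rw [Finset.card_union_of_disjoint hd2, Finset.card_union_of_disjoint hd1, hc1, hc2] at htot
    omega
  have hfinal : 3 * (cayleyGraph (Der (PGL2 F) \ ∅)).indepNum = Nat.card (PGL2 F) := by omega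
  rw [← hfinal]
  push_cast
  ring

end PGL

/-- **Answer to Q1.** For a finite field `F` (of order `q`), the group `PGL(2, q)` acting on the
`q + 1` points of the projective line is strict EKR robust if and only if `q = 2`. -/
theorem result (F : Type*) [Field F] [Finite F] [DecidableEq F] :
    StrictEKRRobust (PGL2 F) ↔ Nat.card F = 2 := by
  classical
  constructor
  · intro h
    have : Fintype F := Fintype.ofFinite F
    by_cases h7 : 7 ≤ Nat.card F
    · exact absurd h (not_robust_of_seven_le h7)
    by_cases h2 : ringChar F = 2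
    · -- the order is a power of two
      have hchar : CharP F 2 := by rw [← h2]; exact ringChar.charP F
      obtain ⟨n, -, hn⟩ := FiniteField.card F 2
      rw [← Nat.card_eq_fintype_card] at hn
      have hn1 : 1 ≤ (n : ℕ) := n.2
      have hn3 : (n : ℕ) < 3 := by
        by_contra hcon
        push Not at hcon
        have : 2 ^ 3 ≤ 2 ^ (n : ℕ) := Nat.pow_le_pow_right (by norm_num) hcon
        omega
      interval_cases (n : ℕ)
      · simpa using hn
      · exact absurd h (not_robust_of_four (by simpa using hn))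
    · exact absurd h (not_robust_of_odd h2)
  · exact robust_of_two

end Pool.Agent.Results.MP_6fd06d_co.StrictRobustIff
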